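import Pool.Agent.H458Z.Byk.Defs

set_option autoImplicit false

namespace Pool.Agent.H458Z.Steinberg

open Module FreeAbelianGroup

section Map

variable {O : Type} [CommRing O] (K : Type) [Field K] [Algebra O K]

/-- The line through a vector. -/
def line (y : Fin 2 → O) : Submodule K (Fin 2 → K) :=
  Submodule.span K {fun k => algebraMap O K (y k)}

lemma perm_two : (Finset.univ : Finset (Equiv.Perm (Fin 2))) = {1, Equiv.swap 0 1} := by decide

lemma flag_two (v : OB O 2) (σ : Equiv.Perm (Fin 2)) : flag K v σ = [line K (v (σ 0))] := by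
  have : {y | ∃ i : Fin 2, (i : ℕ) ≤ 0 ∧ y = fun k => algebraMap O K (v (σ i) k)} =
      {fun k => algebraMap O K (v (σ 0) k)} := by
    ext y
    constructor
    · rintro ⟨i, hi, rfl⟩
      have : i = 0 := Fin.ext (by omega)
      rw [this]
      rfl
    · rintro rfl
      exact ⟨0, le_rfl, rfl⟩
  simp only [flag, line, vec]
  rw [← this]
  rfl

lemma apartment_two (v : OB O 2) :
    apartment K v = of [line K (v 0)] - of [line K (v 1)] := by
  rw [apartment, perm_two, Finset.sum_pair (by decide), flag_two, flag_two]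
  simp [sub_eq_add_neg]

lemma line_unit (u : Oˣ) (y : Fin 2 → O) : line K ((u : O) • y) = line K y := by
  have : (fun k => algebraMap O K (((u : O) • y) k)) =
      algebraMap O K u • fun k => algebraMap O K (y k) := by
    funext k
    simp
  rw [line, this, Submodule.span_singleton_smul_eq (u.isUnit.map _)]
  rfl

lemma line_mem (hinj : Function.Injective (algebraMap O K)) {y : Fin 2 → O} (hy : y ≠ 0) :
    of [line K y] ∈ chains K 2 1 := by
  have h0 : (fun k => algebraMap O K (y k)) ≠ 0 := by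
    intro h
    apply hy
    funext k
    apply hinj
    simpa using congrFun h k
  refine AddSubgroup.subset_closure ⟨[line K y], rfl, by simp, ?_, rfl⟩
  intro V hV
  rw [List.mem_singleton.1 hV]
  constructor
  · simpa [line] using h0
  · intro h
    have h1 : finrank K (line K y) = 1 := finrank_span_singleton h0
    rw [h] at h1
    simp at h1

lemma apartment_mem [Nontrivial O] (hinj : Function.Injective (algebraMap O K)) (v : OB O 2) :
    apartment K v ∈ St K 2 := by
  rw [apartment_two]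
  refine AddSubgroup.mem_inf.2 ⟨AddSubgroup.sub_mem _ (line_mem K hinj (v.ne_zero 0))
    (line_mem K hinj (v.ne_zero 1)), ?_⟩
  simp [bdry]

/-- A function on bases that depends antisymmetrically on the two vectors kills the relations. -/
lemma rels_le_ker {A : Type} [AddCommGroup A] (χ : (Fin 2 → O) → (Fin 2 → O) → A)
    (h1 : ∀ v : OB O 2, χ (v 1) (v 0) = - χ (v 0) (v 1))
    (h2 : ∀ (v : OB O 2) (u : Oˣ), χ ((u : O) • v 0) (v 1) = χ (v 0) (v 1))
    (h3 : ∀ v : OB O 2, χ (v 0) (v 1) - χ (v 0 + v 1) (v 1) + χ (v 0 + v 1) (v 0) = 0) :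
    AddSubgroup.closure (rels O 2) ≤ (lift fun v : OB O 2 => χ (v 0) (v 1)).ker := by
  rw [AddSubgroup.closure_le]
  rintro x (⟨v, w, σ, hw, rfl⟩ | ⟨v, w, u, i, hi, hw, hw', rfl⟩ |
    ⟨v, w, w', i, j, hi, hj, a1, a2, a3, a4, -, rfl⟩) <;> simp only [vec] at *
  · have hσ : σ ∈ ({1, Equiv.swap 0 1} : Finset (Equiv.Perm (Fin 2))) := by
      rw [← perm_two]; exact Finset.mem_univ _
    simp only [Finset.mem_insert, Finset.mem_singleton] at hσ
    rcases hσ with rfl | rfl
    · simp [hw]
    · simp [hw, h1]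
  · have : i = 0 := Fin.ext hi
    subst this
    simp [hw, hw' 1 (by decide), h2]
  · have e1 : i = 0 := Fin.ext hi
    have e2 : j = 1 := Fin.ext hj
    subst e1 e2
    simpa [a1, a2 1 (by decide), a3, a4] using h3 v

/-- The apartment map on `Byk_2`. -/
noncomputable def aptMap [Nontrivial O] (hinj : Function.Injective (algebraMap O K)) :
    Byk O 2 →+ St K 2 :=
  (QuotientAddGroup.lift _
    (lift fun v : OB O 2 => (of [line K (v 0)] - of [line K (v 1)] :
      FreeAbelianGroup (List (Submodule K (Fin 2 → K)))))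
    (rels_le_ker (fun y z => of [line K y] - of [line K z]) (fun v => by abel)
      (fun v u => by rw [line_unit]) (fun v => by abel))).codRestrict _ (by
    intro x
    induction x using QuotientAddGroup.induction_on with
    | H x =>
      rw [QuotientAddGroup.lift_mk]
      induction x using FreeAbelianGroup.induction_on with
      | zero => simp
      | of v => rw [lift_apply_of, ← apartment_two]; exact apartment_mem K hinj v
      | neg v h => rw [map_neg]; exact neg_mem h
      | add a b ha hb => rw [map_add]; exact add_mem ha hb)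

lemma aptMap_symb [Nontrivial O] (hinj : Function.Injective (algebraMap O K)) (v : OB O 2) :
    (aptMap K hinj (symb v) : FreeAbelianGroup (List (Submodule K (Fin 2 → K)))) =
      apartment K v := by
  rw [apartment_two]
  simp [aptMap, symb]

end Map

/-- Sign of a real number. -/
noncomputable def sg (t : ℝ) : ℤ := if 0 < t then 1 else -1

/-- Lexicographic sign of a real vector. -/
noncomputable def ls (x y : ℝ) : ℤ := if 0 < y ∨ (y = 0 ∧ 0 < x) then 1 else -1

lemma sg_pos {t : ℝ} (h : 0 < t) : sg t = 1 := if_pos h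

lemma sg_neg {t : ℝ} (h : t < 0) : sg t = -1 := if_neg (not_lt.2 h.le)

lemma sg_neg_eq {t : ℝ} (h : t ≠ 0) : sg (-t) = - sg t := by
  rcases lt_or_gt_of_ne h with h | h
  · rw [sg_neg h, sg_pos (by linarith)]; rfl
  · rw [sg_pos h, sg_neg (by linarith)]

lemma sg_mul {s t : ℝ} (hs : s ≠ 0) (ht : t ≠ 0) : sg (s * t) = sg s * sg t := by
  rcases lt_or_gt_of_ne hs with hs | hs <;> rcases lt_or_gt_of_ne ht with ht | ht
  · rw [sg_neg hs, sg_neg ht, sg_pos (mul_pos_of_neg_of_neg hs ht)]; rfl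
  · rw [sg_neg hs, sg_pos ht, sg_neg (mul_neg_of_neg_of_pos hs ht)]; rfl
  · rw [sg_pos hs, sg_neg ht, sg_neg (mul_neg_of_pos_of_neg hs ht)]; rfl
  · rw [sg_pos hs, sg_pos ht, sg_pos (mul_pos hs ht)]; rfl

lemma sg_sq (t : ℝ) : sg t * sg t = 1 := by
  unfold sg; split_ifs <;> rfl

lemma ls_smul {u x y : ℝ} (hu : u ≠ 0) (h : x ≠ 0 ∨ y ≠ 0) : ls (u * x) (u * y) = sg u * ls x y := by
  rcases lt_or_gt_of_ne hu with hu | hu
  · rw [sg_neg hu]
    unfold ls
    by_cases hp : 0 < y ∨ (y = 0 ∧ 0 < x)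
    · rw [if_pos hp, if_neg]
      · rfl
      · rintro (h1 | ⟨h1, h2⟩)
        · rcases hp with hp | ⟨hp, -⟩
          · nlinarith
          · rw [hp] at h1; simp at h1
        · rcases hp with hp | ⟨-, hp⟩
          · nlinarith
          · nlinarith
    · rw [if_neg hp, if_pos]
      · rfl
      · push Not at hp
        rcases eq_or_lt_of_le hp.1 with hy | hy
        · right
          refine ⟨by rw [hy, mul_zero], ?_⟩
          have hx : x < 0 := lt_of_le_of_ne (hp.2 hy) (h.resolve_right (not_not.2 hy))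
          nlinarith
        · left; nlinarith
  · rw [sg_pos hu, one_mul]
    unfold ls
    have e : (0 < u * y ∨ (u * y = 0 ∧ 0 < u * x)) ↔ (0 < y ∨ (y = 0 ∧ 0 < x)) := by
      rw [mul_pos_iff_of_pos_left hu, mul_pos_iff_of_pos_left hu, mul_eq_zero]
      simp [hu.ne']
    simp only [e]

lemma ls_tri (x y x' y' : ℝ) :
    ls x y * ls x' y' - ls (x + x') (y + y') * ls x' y' - ls (x + x') (y + y') * ls x y = -1 := by
  unfold ls
  by_cases h1 : 0 < y ∨ (y = 0 ∧ 0 < x) <;> by_cases h2 : 0 < y' ∨ (y' = 0 ∧ 0 < x')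
  · have h3 : 0 < y + y' ∨ (y + y' = 0 ∧ 0 < x + x') := by
      rcases h1 with h1 | ⟨h1, h1'⟩ <;> rcases h2 with h2 | ⟨h2, h2'⟩
      · left; linarith
      · left; linarith
      · left; linarith
      · right; constructor <;> linarith
    rw [if_pos h1, if_pos h2, if_pos h3]; rfl
  · rw [if_pos h1, if_neg h2]; ring
  · rw [if_neg h1, if_pos h2]; ring
  · have h3 : ¬ (0 < y + y' ∨ (y + y' = 0 ∧ 0 < x + x')) := by
      push Not at h1 h2 ⊢
      refine ⟨by linarith [h1.1, h2.1], fun h => ?_⟩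
      have e1 : y = 0 := by linarith [h1.1, h2.1]
      have e2 : y' = 0 := by linarith [h1.1, h2.1]
      linarith [h1.2 e1, h2.2 e2]
    rw [if_neg h1, if_neg h2, if_neg h3]; rfl

section Cocycle

variable {O : Type} [CommRing O]

/-- Determinant of two vectors. -/
def det2 (y z : Fin 2 → O) : O := y 0 * z 1 - z 0 * y 1

lemma det_eq (v : Fin 2 → Fin 2 → O) : (Pi.basisFun O (Fin 2)).det v = det2 (v 0) (v 1) := by
  rw [Basis.det_apply, Matrix.det_fin_two]
  simp [Basis.toMatrix_apply, det2]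

lemma det2_unit (v : OB O 2) : IsUnit (det2 (v 0) (v 1)) := by
  rw [← det_eq]
  exact (Pi.basisFun O (Fin 2)).isUnit_det v

lemma exists_basis {y z : Fin 2 → O} (h : IsUnit (det2 y z)) : ∃ v : OB O 2, v 0 = y ∧ v 1 = z := by
  have := ((Pi.basisFun O (Fin 2)).is_basis_iff_det (v := ![y, z])).2 (by rw [det_eq]; exact h)
  exact ⟨Basis.mk this.1 this.2.ge, by simp, by simp⟩

/-- Orientation cocycle of one real embedding. -/
noncomputable def chi (σ : O →+* ℝ) (y z : Fin 2 → O) : ℤ :=
  sg (σ (det2 y z)) * (ls (σ (y 0)) (σ (y 1)) * ls (σ (z 0)) (σ (z 1)))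

lemma chi_swap (σ : O →+* ℝ) {y z : Fin 2 → O} (h : IsUnit (det2 y z)) :
    chi σ z y = - chi σ y z := by
  have : det2 z y = - det2 y z := by simp [det2]
  rw [chi, chi, this, map_neg, sg_neg_eq (h.map σ).ne_zero]
  ring

lemma chi_unit (σ : O →+* ℝ) {y z : Fin 2 → O} (h : IsUnit (det2 y z)) (u : Oˣ) :
    chi σ ((u : O) • y) z = chi σ y z := by
  have e : det2 ((u : O) • y) z = u * det2 y z := by simp [det2]; ring
  have hu : σ u ≠ 0 := (u.isUnit.map σ).ne_zero
  have hd : σ (det2 y z) ≠ 0 := (h.map σ).ne_zero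
  have hy : σ (y 0) ≠ 0 ∨ σ (y 1) ≠ 0 := by
    by_contra hn
    push Not at hn
    apply hd
    simp [det2, hn.1, hn.2]
  rw [chi, chi, e, map_mul, sg_mul hu hd]
  simp only [Pi.smul_apply, smul_eq_mul, map_mul]
  rw [ls_smul hu hy]
  linear_combination (sg (σ (det2 y z)) * ls (σ (y 0)) (σ (y 1)) * ls (σ (z 0)) (σ (z 1))) *
    sg_sq (σ u)

lemma chi_tri (σ : O →+* ℝ) {y z : Fin 2 → O} (h : IsUnit (det2 y z)) :
    chi σ y z - chi σ (y + z) z + chi σ (y + z) y = - sg (σ (det2 y z)) := by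
  have e1 : det2 (y + z) z = det2 y z := by simp [det2]; ring
  have e2 : det2 (y + z) y = - det2 y z := by simp [det2]; ring
  rw [chi, chi, chi, e1, e2, map_neg, sg_neg_eq (h.map σ).ne_zero]
  simp only [Pi.add_apply, map_add]
  linear_combination (sg (σ (det2 y z))) * ls_tri (σ (y 0)) (σ (y 1)) (σ (z 0)) (σ (z 1))

theorem not_injective (K : Type) [Field K] [Algebra O K] [Nontrivial O]
    (hinj : Function.Injective (algebraMap O K)) (σ τ : O →+* ℝ)
    (hu : ∀ u : O, IsUnit u → 0 < σ u * τ u) (a x : O) (hax : a * x = 2) (ha : 0 < σ a)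
    (ha' : τ a < 0) : ¬ Function.Injective (aptMap (O := O) K hinj) := by
  intro hI
  have hsg : ∀ u : O, IsUnit u → sg (σ u) = sg (τ u) := by
    intro u h
    have h1 := sg_mul (h.map σ).ne_zero (h.map τ).ne_zero
    rw [sg_pos (hu u h)] at h1
    linear_combination (sg (σ u)) * h1 + (sg (τ u)) * sg_sq (σ u)
  let Φ : Byk O 2 →+ ℤ := QuotientAddGroup.lift _
    (lift fun v : OB O 2 => chi σ (v 0) (v 1) - chi τ (v 0) (v 1))
    (rels_le_ker (fun y z => chi σ y z - chi τ y z)
      (fun v => by rw [chi_swap σ (det2_unit v), chi_swap τ (det2_unit v)]; ring)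
      (fun v u => by rw [chi_unit σ (det2_unit v), chi_unit τ (det2_unit v)])
      (fun v => by
        linear_combination chi_tri σ (det2_unit v) - chi_tri τ (det2_unit v) - hsg _ (det2_unit v)))
  have hΦ : ∀ v : OB O 2, Φ (symb v) = chi σ (v 0) (v 1) - chi τ (v 0) (v 1) := by
    intro v
    simp [Φ, symb]
  have d1 : det2 (![1, 0] : Fin 2 → O) ![0, 1] = 1 := by simp [det2]
  have d2 : det2 (![0, 1] : Fin 2 → O) ![1, a] = -1 := by simp [det2]
  have d3 : det2 (![1, a] : Fin 2 → O) ![x, 1] = -1 := by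
    simp only [det2, Matrix.cons_val_zero, Matrix.cons_val_one]
    linear_combination (-1 : O) * hax
  have d4 : det2 (![x, 1] : Fin 2 → O) ![1, 0] = -1 := by simp [det2]
  obtain ⟨b1, p1, q1⟩ := exists_basis (d1 ▸ isUnit_one)
  obtain ⟨b2, p2, q2⟩ := exists_basis (d2 ▸ isUnit_one.neg)
  obtain ⟨b3, p3, q3⟩ := exists_basis (d3 ▸ isUnit_one.neg)
  obtain ⟨b4, p4, q4⟩ := exists_basis (d4 ▸ isUnit_one.neg)
  have hz : symb b1 + symb b2 + symb b3 + symb b4 = 0 := by
    apply hI
    apply Subtype.ext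
    simp only [map_add, AddSubgroup.coe_add, aptMap_symb, apartment_two, p1, q1, p2, q2, p3, q3,
      p4, q4, map_zero, AddSubgroup.coe_zero]
    abel
  have hΦz := congrArg Φ hz
  simp only [map_add, hΦ, p1, q1, p2, q2, p3, q3, p4, q4, map_zero, chi, d1, d2, d3, d4, map_one,
    map_neg, Matrix.cons_val_zero, Matrix.cons_val_one] at hΦz
  have s1 : sg 1 = 1 := sg_pos one_pos
  have s2 : sg (-1) = -1 := sg_neg (by norm_num)
  have l1 : ls 1 0 = 1 := if_pos (Or.inr ⟨rfl, one_pos⟩)
  have l2 : ∀ t, ls t 1 = 1 := fun t => if_pos (Or.inl one_pos)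
  have l3 : ls 1 (σ a) = 1 := if_pos (Or.inl ha)
  have l4 : ls 1 (τ a) = -1 := if_neg (by
    rintro (h | ⟨h, -⟩) <;> linarith)
  rw [s1, s2, l1, l2, l2, l2, l3, l4] at hΦz
  norm_num at hΦz

end Cocycle

end Pool.Agent.H458Z.Steinberg
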