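import Mathlib

set_option autoImplicit false

namespace Pool.Agent.H458Z.Steinberg

open Module

/-- `R` admits a Euclidean function (not necessarily a norm). -/
def IsEuclid (R : Type) [CommRing R] : Prop :=
  ∃ f : R → ℕ, ∀ a b : R, b ≠ 0 → ∃ q r : R, a = b * q + r ∧ (r = 0 ∨ f r < f b)

/-- Every element of `R` is a finite sum of units. -/
def GenByUnits (R : Type) [CommRing R] : Prop :=
  ∀ x : R, ∃ l : List Rˣ, x = (l.map Units.val).sum

/-- Ordered bases of `O ^ n`. -/
abbrev OB (O : Type) [CommRing O] (n : ℕ) : Type := Basis (Fin n) O (Fin n → O)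

/-- The `i`-th vector of a basis. -/
noncomputable def vec {O : Type} [CommRing O] {n : ℕ} (v : OB O n) (i : Fin n) : Fin n → O := v i

/-- Subspaces of `K ^ n`. -/
abbrev Sub (K : Type) [Field K] (n : ℕ) : Type := Submodule K (Fin n → K)

/-- Relation 1: permutations. -/
def rel1 (O : Type) [CommRing O] (n : ℕ) (x : FreeAbelianGroup (OB O n)) : Prop :=
  ∃ (v w : OB O n) (σ : Equiv.Perm (Fin n)), (∀ i, vec w i = vec v (σ i)) ∧
    x = FreeAbelianGroup.of v - ((Equiv.Perm.sign σ : ℤˣ) : ℤ) • FreeAbelianGroup.of w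

/-- Relation 2: units. -/
def rel2 (O : Type) [CommRing O] (n : ℕ) (x : FreeAbelianGroup (OB O n)) : Prop :=
  ∃ (v w : OB O n) (u : Oˣ) (i₁ : Fin n), (i₁ : ℕ) = 0 ∧ vec w i₁ = (u : O) • vec v i₁ ∧
    (∀ i, i ≠ i₁ → vec w i = vec v i) ∧ x = FreeAbelianGroup.of v - FreeAbelianGroup.of w

/-- Relation 3: the three-term relation. -/
def rel3 (O : Type) [CommRing O] (n : ℕ) (x : FreeAbelianGroup (OB O n)) : Prop :=
  ∃ (v w w' : OB O n) (i₁ i₂ : Fin n), (i₁ : ℕ) = 0 ∧ (i₂ : ℕ) = 1 ∧
    vec w i₁ = vec v i₁ + vec v i₂ ∧ (∀ i, i ≠ i₁ → vec w i = vec v i) ∧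
    vec w' i₁ = vec v i₁ + vec v i₂ ∧ vec w' i₂ = vec v i₁ ∧
    (∀ i, i ≠ i₁ → i ≠ i₂ → vec w' i = vec v i) ∧
    x = FreeAbelianGroup.of v - FreeAbelianGroup.of w + FreeAbelianGroup.of w'

/-- The three families of relations of the generalized Bykovskii presentation. -/
def rels (O : Type) [CommRing O] (n : ℕ) : Set (FreeAbelianGroup (OB O n)) :=
  {x | rel1 O n x ∨ rel2 O n x ∨ rel3 O n x}

/-- The group `Byk_n(O)`. -/
abbrev Byk (O : Type) [CommRing O] (n : ℕ) : Type :=
  FreeAbelianGroup (OB O n) ⧸ AddSubgroup.closure (rels O n)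

/-- The symbol `[[v_1, ..., v_n]]`. -/
def symb {O : Type} [CommRing O] {n : ℕ} (v : OB O n) : Byk O n :=
  QuotientAddGroup.mk (FreeAbelianGroup.of v)

/-- The simplicial boundary on ordered lists of vertices (augmented: the boundary of a one-element
list is the empty list). -/
noncomputable def bdry (α : Type) : FreeAbelianGroup (List α) →+ FreeAbelianGroup (List α) :=
  FreeAbelianGroup.lift fun l =>
    ∑ i ∈ Finset.range l.length, ((-1 : ℤ) ^ i) • FreeAbelianGroup.of (l.eraseIdx i)

/-- The group of simplicial chains of the Tits building spanned by the flags with `k` subspaces. -/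
def chains (K : Type) [Field K] (n k : ℕ) :
    AddSubgroup (FreeAbelianGroup (List (Sub K n))) :=
  AddSubgroup.closure {x | ∃ l : List (Sub K n), l.length = k ∧
    l.Pairwise (· < ·) ∧ (∀ V ∈ l, V ≠ ⊥ ∧ V ≠ ⊤) ∧ x = FreeAbelianGroup.of l}

/-- The Steinberg module: top-dimensional reduced cycles of the Tits building of `K ^ n`. -/
noncomputable def St (K : Type) [Field K] (n : ℕ) :
    AddSubgroup (FreeAbelianGroup (List (Sub K n))) :=
  chains K n (n - 1) ⊓ (bdry _).ker

/-- The complete flag of `K ^ n` attached to a basis and a permutation. -/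
noncomputable def flag {O : Type} [CommRing O] (K : Type) [Field K] [Algebra O K] {n : ℕ} (v : OB O n)
    (σ : Equiv.Perm (Fin n)) : List (Sub K n) :=
  (List.range (n - 1)).map fun j =>
    Submodule.span K {y | ∃ i : Fin n, (i : ℕ) ≤ j ∧ y = fun k => algebraMap O K (vec v (σ i) k)}

/-- The fundamental class of the apartment of a basis. -/
noncomputable def apartment {O : Type} [CommRing O] (K : Type) [Field K] [Algebra O K] {n : ℕ}
    (v : OB O n) : FreeAbelianGroup (List (Sub K n)) :=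
  ∑ σ : Equiv.Perm (Fin n), ((Equiv.Perm.sign σ : ℤˣ) : ℤ) • FreeAbelianGroup.of (flag K v σ)

/-- The apartment map `Byk_n(O) → St_n(K)` exists and is not injective. -/
def ApartmentMapNotInjective (O : Type) [CommRing O] (K : Type) [Field K] [Algebra O K] (n : ℕ) :
    Prop :=
  ∃ φ : Byk O n →+ FreeAbelianGroup (List (Sub K n)),
    (∀ x, φ x ∈ St K n) ∧ (∀ v : OB O n, φ (symb v) = apartment K v) ∧ ¬ Function.Injective φ

end Pool.Agent.H458Z.Steinberg
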