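import Pool.Agent.H458Z.Byk.Core

set_option autoImplicit false

namespace Pool.Agent.H458Z.Steinberg

open Module NumberField QuadraticAlgebra

lemma not_sq_three (r : ℚ) : r ^ 2 ≠ 3 + 0 * r := by
  intro h
  have h3 : Irrational (Real.sqrt 3) := by
    simpa using (Nat.Prime.irrational_sqrt (by norm_num : Nat.Prime 3))
  apply h3
  refine ⟨|r|, ?_⟩
  have : ((r : ℝ)) ^ 2 = 3 := by
    have : r ^ 2 = 3 := by linarith
    exact_mod_cast this
  rw [← this, Real.sqrt_sq_eq_abs]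
  push_cast
  rfl

instance factThree : Fact (∀ r : ℚ, r ^ 2 ≠ 3 + 0 * r) := ⟨not_sq_three⟩

/-- The field `Q(sqrt 3)`. -/
abbrev K3 : Type := QuadraticAlgebra ℚ 3 0

instance instNF : NumberField K3 where

lemma int_of_integral {q : ℚ} (h : IsIntegral ℤ q) : ∃ m : ℤ, q = m := by
  obtain ⟨m, hm⟩ := IsIntegrallyClosed.isIntegral_iff.1 h
  exact ⟨m, by simpa using hm.symm⟩

lemma coords (x : 𝓞 K3) : ∃ a b : ℤ, (x : K3).re = a ∧ (x : K3).im = b := by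
  have hx : IsIntegral ℤ (x : K3) := x.isIntegral_coe
  have hs : IsIntegral ℤ (star (x : K3)) :=
    hx.map (starRingEnd K3).toIntAlgHom
  have inj : Function.Injective (algebraMap ℚ K3) := (algebraMap ℚ K3).injective
  have key : ∀ q : ℚ, algebraMap ℚ K3 q = ⟨q, 0⟩ := fun q => by rw [eq_ratCast]; rfl
  have ht : IsIntegral ℤ (2 * (x : K3).re) := by
    have e : (x : K3) + star (x : K3) = ⟨2 * (x : K3).re, 0⟩ := by
      ext
      · simp; ring
      · simp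
    rw [← isIntegral_algebraMap_iff inj, key, ← e]
    exact hx.add hs
  have hn : IsIntegral ℤ ((x : K3).re ^ 2 - 3 * (x : K3).im ^ 2) := by
    have e : (x : K3) * star (x : K3) = ⟨(x : K3).re ^ 2 - 3 * (x : K3).im ^ 2, 0⟩ := by
      ext
      · simp; ring
      · simp; ring
    rw [← isIntegral_algebraMap_iff inj, key, ← e]
    exact hx.mul hs
  obtain ⟨m, hm⟩ := int_of_integral ht
  obtain ⟨N, hN⟩ := int_of_integral hn
  have h6 : IsIntegral ℤ (6 * (x : K3).im) := by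
    apply IsIntegral.of_pow (n := 2) two_pos
    have : (6 * (x : K3).im) ^ 2 = ((3 * (m ^ 2 - 4 * N) : ℤ) : ℚ) := by
      push_cast
      rw [← hm, ← hN]
      ring
    rw [this]
    exact isIntegral_algebraMap
  obtain ⟨k, hk⟩ := int_of_integral h6
  have e1 : k ^ 2 = 3 * (m ^ 2 - 4 * N) := by
    have : (k : ℚ) ^ 2 = 3 * ((m : ℚ) ^ 2 - 4 * N) := by
      rw [← hm, ← hN, ← hk]
      ring
    exact_mod_cast this
  have h3 : (3 : ℤ) ∣ k := Int.prime_three.dvd_of_dvd_pow (n := 2) ⟨_, e1⟩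
  obtain ⟨l, rfl⟩ := h3
  have e2 : m ^ 2 - 3 * l ^ 2 = 4 * N := by nlinarith
  have e3 : (2 : ℤ) ∣ m ∧ (2 : ℤ) ∣ l := by
    rcases Int.even_or_odd' m with ⟨s, rfl | rfl⟩ <;> rcases Int.even_or_odd' l with ⟨t, rfl | rfl⟩
    · exact ⟨⟨s, rfl⟩, ⟨t, rfl⟩⟩
    · exfalso
      have : 4 * (s ^ 2 - 3 * t ^ 2 - 3 * t - N) = 3 := by linarith
      omega
    · exfalso
      have : 4 * (N - s ^ 2 - s + 3 * t ^ 2) = 1 := by linarith
      omega
    · exfalso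
      have : 4 * (s ^ 2 + s - 3 * t ^ 2 - 3 * t - N) = 2 := by linarith
      omega
  obtain ⟨⟨s, rfl⟩, ⟨t, rfl⟩⟩ := e3
  refine ⟨s, t, ?_, ?_⟩
  · push_cast at hm
    linarith
  · push_cast at hk
    linarith

/-- The integer `sqrt 3`. -/
noncomputable def w3 : 𝓞 K3 :=
  ⟨⟨0, 1⟩, by
    apply IsIntegral.of_pow (n := 2) two_pos
    have : (⟨0, 1⟩ : K3) ^ 2 = algebraMap ℤ K3 3 := by
      ext <;> simp [pow_two]
    rw [this]
    exact isIntegral_algebraMap⟩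

lemma coe_comb (a b : ℤ) : (((a : 𝓞 K3) + (b : 𝓞 K3) * w3 : 𝓞 K3) : K3) = ⟨a, b⟩ := by
  have : ((w3 : 𝓞 K3) : K3) = ⟨0, 1⟩ := rfl
  have e : (((a : 𝓞 K3) + (b : 𝓞 K3) * w3 : 𝓞 K3) : K3) = (a : K3) + (b : K3) * (w3 : K3) := by
    simp
  rw [e, this]
  ext <;> simp

lemma exists_comb (x : 𝓞 K3) : ∃ a b : ℤ, x = (a : 𝓞 K3) + (b : 𝓞 K3) * w3 := by
  obtain ⟨a, b, ha, hb⟩ := coords x
  refine ⟨a, b, ?_⟩
  apply RingOfIntegers.ext
  rw [coe_comb]
  ext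
  · exact ha
  · exact hb

lemma w3_sq : w3 * w3 = 3 := by
  apply RingOfIntegers.ext
  have : ((w3 : 𝓞 K3) : K3) = ⟨0, 1⟩ := rfl
  have e : ((w3 * w3 : 𝓞 K3) : K3) = (w3 : K3) * (w3 : K3) := by simp
  have e3 : (((3 : 𝓞 K3)) : K3) = 3 := map_ofNat (algebraMap (𝓞 K3) K3) 3
  rw [e, this, e3]
  ext <;> simp

/-- The norm form. -/
def nrm (z : K3) : ℚ := z.re ^ 2 - 3 * z.im ^ 2

lemma nrm_mul (z w : K3) : nrm (z * w) = nrm z * nrm w := by
  simp [nrm]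
  ring

lemma nrm_int (x : 𝓞 K3) : ∃ a b : ℤ, nrm (x : K3) = (a ^ 2 - 3 * b ^ 2 : ℤ) := by
  obtain ⟨a, b, ha, hb⟩ := coords x
  exact ⟨a, b, by rw [nrm, ha, hb]; push_cast; ring⟩

lemma nrm_ne_zero {z : K3} (hz : z ≠ 0) : nrm z ≠ 0 := by
  intro h
  have h1 := nrm_mul z z⁻¹
  rw [mul_inv_cancel₀ hz, h, zero_mul] at h1
  simp [nrm] at h1

lemma euclid : IsEuclid (𝓞 K3) := by
  refine ⟨fun x => ⌊|nrm (x : K3)|⌋₊, fun a b hb => ?_⟩
  have hb' : (b : K3) ≠ 0 := fun h => hb (RingOfIntegers.ext (by simpa using h))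
  set z : K3 := (a : K3) * (b : K3)⁻¹ with hz
  let q : 𝓞 K3 := (round z.re : 𝓞 K3) + (round z.im : 𝓞 K3) * w3
  refine ⟨q, a - b * q, by ring, Or.inr ?_⟩
  have hq : (q : K3) = ⟨round z.re, round z.im⟩ := coe_comb _ _
  have e : ((a - b * q : 𝓞 K3) : K3) = (b : K3) * (z - q) := by
    have : ((a - b * q : 𝓞 K3) : K3) = (a : K3) - (b : K3) * (q : K3) := by simp
    rw [this, hz, mul_sub, mul_comm (a : K3), ← mul_assoc, mul_inv_cancel₀ hb', one_mul]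
  have h1 : |nrm (z - q)| < 1 := by
    have a1 := abs_le.1 (abs_sub_round z.re)
    have a2 := abs_le.1 (abs_sub_round z.im)
    rw [hq, abs_lt]
    simp only [nrm, QuadraticAlgebra.re_sub, QuadraticAlgebra.im_sub]
    constructor <;> nlinarith
  have h2 : |nrm ((a - b * q : 𝓞 K3) : K3)| < |nrm (b : K3)| := by
    rw [e, nrm_mul, abs_mul]
    exact mul_lt_of_lt_one_right (abs_pos.2 (nrm_ne_zero hb')) h1
  obtain ⟨s, t, hst⟩ := nrm_int b
  show ⌊|nrm ((a - b * q : 𝓞 K3) : K3)|⌋₊ < ⌊|nrm (b : K3)|⌋₊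
  rw [Nat.floor_lt (abs_nonneg _)]
  refine h2.trans_le (le_of_eq ?_)
  rw [hst, ← Int.cast_abs, ← Int.natCast_natAbs, Int.cast_natCast, Nat.floor_natCast]

lemma genByUnits : GenByUnits (𝓞 K3) := by
  let S : AddSubgroup (𝓞 K3) :=
    { carrier := {x | ∃ l : List (𝓞 K3)ˣ, x = (l.map Units.val).sum}
      zero_mem' := ⟨[], rfl⟩
      add_mem' := by
        rintro _ _ ⟨l, rfl⟩ ⟨l', rfl⟩
        exact ⟨l ++ l', by simp⟩
      neg_mem' := by
        rintro _ ⟨l, rfl⟩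
        refine ⟨l.map fun u => -u, ?_⟩
        induction l with
        | nil => simp
        | cons u l ih =>
          simp only [List.map_cons, List.sum_cons, Units.val_neg] at ih ⊢
          rw [← ih]
          ring }
  have hU : ∀ u : (𝓞 K3)ˣ, (u : 𝓞 K3) ∈ S := fun u => ⟨[u], by simp⟩
  have h1 : (1 : 𝓞 K3) ∈ S := hU 1
  have hε : (2 + w3) * (2 - w3) = 1 := by linear_combination (-1 : 𝓞 K3) * w3_sq
  have h2 : (2 + w3 : 𝓞 K3) ∈ S := hU (Units.mkOfMulEqOne _ _ hε)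
  have h3 : w3 ∈ S := by
    have := S.sub_mem (S.sub_mem h2 h1) h1
    convert this using 1
    ring
  intro x
  obtain ⟨a, b, rfl⟩ := exists_comb x
  have := S.add_mem (S.zsmul_mem h1 a) (S.zsmul_mem h3 b)
  have h4 : (a : 𝓞 K3) + (b : 𝓞 K3) * w3 ∈ S := by simpa using this
  exact h4

/-- A real embedding. -/
noncomputable def emb (s : ℝ) (hs : s * s = 3) : 𝓞 K3 →+* ℝ :=
  (QuadraticAlgebra.lift (R := ℚ) (a := 3) (b := 0) (A := ℝ) ⟨s, by simp [hs]⟩).toRingHom.comp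
    (algebraMap (𝓞 K3) K3)

lemma emb_w3 (s : ℝ) (hs : s * s = 3) : emb s hs w3 = s := by
  have : algebraMap (𝓞 K3) K3 w3 = ⟨0, 1⟩ := rfl
  simp [emb, this, QuadraticAlgebra.lift]

lemma unit_norm (u : 𝓞 K3) (hu : IsUnit u) {s : ℝ} (hs : s * s = 3) (hs' : (-s) * (-s) = 3) :
    0 < emb s hs u * emb (-s) hs' u := by
  have key : ∀ x : 𝓞 K3, ∃ a b : ℤ, emb s hs x * emb (-s) hs' x = (a ^ 2 - 3 * b ^ 2 : ℤ) := by
    intro x
    obtain ⟨a, b, rfl⟩ := exists_comb x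
    refine ⟨a, b, ?_⟩
    simp only [map_add, map_mul, map_intCast, emb_w3]
    push_cast
    linear_combination (-(b : ℝ) ^ 2) * hs
  obtain ⟨v, hv⟩ := hu.exists_right_inv
  obtain ⟨a, b, h1⟩ := key u
  obtain ⟨c, d, h2⟩ := key v
  have h3 : (a ^ 2 - 3 * b ^ 2) * (c ^ 2 - 3 * d ^ 2) = 1 := by
    have e1 : emb s hs u * emb s hs v = 1 := by rw [← map_mul, hv, map_one]
    have e2 : emb (-s) hs' u * emb (-s) hs' v = 1 := by rw [← map_mul, hv, map_one]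
    have : ((a ^ 2 - 3 * b ^ 2 : ℤ) : ℝ) * ((c ^ 2 - 3 * d ^ 2 : ℤ) : ℝ) = 1 := by
      rw [← h1, ← h2]
      linear_combination (emb (-s) hs' u * emb (-s) hs' v) * e1 + e2
    exact_mod_cast this
  rw [h1]
  rcases Int.eq_one_or_neg_one_of_mul_eq_one h3 with h | h
  · rw [h]; simp
  · exfalso
    have h4 : a % 3 = 0 ∨ a % 3 = 1 ∨ a % 3 = 2 := by omega
    have h5 : a ^ 2 % 3 = 0 ∨ a ^ 2 % 3 = 1 := by
      rcases h4 with h4 | h4 | h4 <;> simp [pow_two, Int.mul_emod, h4]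
    omega

theorem not_inj3 : ¬ Function.Injective
    (aptMap (O := 𝓞 K3) K3 (RingOfIntegers.coe_injective)) := by
  have hs : Real.sqrt 3 * Real.sqrt 3 = 3 := Real.mul_self_sqrt (by norm_num)
  have hs' : (-Real.sqrt 3) * (-Real.sqrt 3) = 3 := by rw [neg_mul_neg, hs]
  have h1 : 1 < Real.sqrt 3 := by
    rw [Real.lt_sqrt zero_le_one]; norm_num
  apply not_injective K3 _ (emb _ hs) (emb _ hs') (fun u hu => unit_norm u hu hs hs')
    (w3 - 1) (w3 + 1)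
  · linear_combination w3_sq
  · rw [map_sub, emb_w3, map_one]; linarith
  · rw [map_sub, emb_w3, map_one]; linarith

end Pool.Agent.H458Z.Steinberg
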